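import Pool.Agent.Helper62.LH.StG

/-!
# Project LH: module HR (Hopf-Rinow: closed balls of a complete metric are compact)
-/

set_option autoImplicit false

open Set Filter Topology MeasureTheory
open scoped ContDiff ENNReal

noncomputable section

namespace Pool.Agent.Helper76.LH

open Helper62.LH

/-- type synonym for the metric space structure -/
def X_HR (n : ℕ) : Type := E n

/-- the metric space given by a distance function -/
@[reducible] def mS_HR {n : ℕ} (d : E n → E n → ℝ) (h0 : ∀ x, d x x = 0) (hs : ∀ x y, d x y = d y x)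
    (ht : ∀ x y z, d x z ≤ d x y + d y z) (he : ∀ x y, d x y = 0 → x = y) :
    MetricSpace (X_HR n) where
  dist x y := d x y
  dist_self x := h0 x
  dist_comm x y := hs x y
  dist_triangle x y z := ht x y z
  eq_of_dist_eq_zero := fun {x y} h => he x y h

/-- totally bounded sets are compact -/
lemma cpt_HR {n : ℕ} (d : E n → E n → ℝ) (h0 : ∀ x, d x x = 0) (hs : ∀ x y, d x y = d y x)
    (ht : ∀ x y z, d x z ≤ d x y + d y z) (he : ∀ x y, d x y = 0 → x = y)
    (hball : ∀ (x : E n) (r : ℝ), 0 < r → ∃ δ > 0, ∀ y, d x y < δ → ‖y - x‖ < r)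
    (hc : ∀ u : ℕ → E n, (∀ ε > 0, ∃ N, ∀ i ≥ N, ∀ j ≥ N, d (u i) (u j) < ε) →
      ∃ x, ∀ ε > 0, ∃ N, ∀ i ≥ N, d (u i) x < ε) (p : E n) (r : ℝ)
    (htot : ∀ ε > 0, ∃ F : Set (E n), F.Finite ∧ ∀ x, d p x ≤ r → ∃ y ∈ F, d x y < ε) :
    IsCompact {x | d p x ≤ r} := by
  letI : MetricSpace (X_HR n) := mS_HR d h0 hs ht he
  have hdist : ∀ x y : X_HR n, dist x y = d x y := fun _ _ => rfl
  haveI : CompleteSpace (X_HR n) := by
    apply Metric.complete_of_cauchySeq_tendsto
    intro u hu
    rw [Metric.cauchySeq_iff] at hu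
    obtain ⟨x, hx⟩ := hc u hu
    exact ⟨x, Metric.tendsto_atTop.2 hx⟩
  set BX : Set (X_HR n) := {x | d p x ≤ r} with hBX
  have hcl : IsClosed BX := by
    let pX : X_HR n := p
    have : BX = Metric.closedBall pX r := by
      ext x
      rw [Metric.mem_closedBall, hdist, hs x pX]; rfl
    rw [this]; exact Metric.isClosed_closedBall
  have htb : TotallyBounded BX := by
    rw [Metric.totallyBounded_iff]
    intro ε hε
    obtain ⟨F, hF, hF'⟩ := htot ε hε
    refine ⟨F, hF, ?_⟩
    intro x hx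
    obtain ⟨y, hy, hxy⟩ := hF' x hx
    exact mem_iUnion₂.2 ⟨y, hy, hxy⟩
  have hcomp : IsCompact BX := isCompact_iff_totallyBounded_isComplete.2 ⟨htb, hcl.isComplete⟩
  have hcont : Continuous (fun x : X_HR n => (show E n from x)) := by
    rw [Metric.continuous_iff]
    intro x ε hε
    obtain ⟨δ, hδ, h⟩ := hball x ε hε
    refine ⟨δ, hδ, fun y hy => ?_⟩
    rw [hdist] at hy
    have hy' : d x y < δ := by rw [hs x y]; exact hy
    have := h y hy'
    rw [dist_eq_norm]; exact this
  have him := hcomp.image hcont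
  have : (fun x : X_HR n => (show E n from x)) '' BX = {x | d p x ≤ r} := by
    ext x
    constructor
    · rintro ⟨y, hy, rfl⟩; exact hy
    · intro hx; exact ⟨x, hx, rfl⟩
  rw [this] at him
  exact him

theorem hHr (hMet : StMet) (hDlc : StDlc) : StHr := by
  intro n g hg hC p R₀
  obtain ⟨hm1, hm2, hm3, hm4, hm5, hm6⟩ := hMet n g hg
  obtain ⟨hd1, hd2, hd3⟩ := hDlc n g hg
  have hdc : ∀ x : E n, Continuous (fun y => dg g x y) := fun x =>
    hd3.comp (continuous_const.prodMk continuous_id)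
  have hclosed : ∀ (x : E n) (r : ℝ), IsClosed {y | dg g x y ≤ r} := fun x r =>
    isClosed_le (hdc x) continuous_const
  have hopen : ∀ (x : E n) (r : ℝ), IsOpen {y | dg g x y < r} := fun x r =>
    isOpen_lt (hdc x) continuous_const
  -- splitting points
  have hsplit : ∀ (x : E n) (r η : ℝ), 0 ≤ r → 0 < η → dg g p x < r + η →
      ∃ z, dg g p z ≤ r ∧ dg g z x < η := by
    intro x r η hr hη hx
    obtain ⟨c, hc, hc0, hc1, hlen⟩ := hm2 p x (r + η - dg g p x) (by linarith)
    have hlen' : len g c < r + η := by linarith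
    have hcont : Continuous (fun τ => nr g (c τ) (deriv c τ)) := by
      unfold nr
      have h1 : Continuous (deriv c) := hc.continuous_deriv le_rfl
      have h2 : Continuous (fun τ => g (c τ)) := hg.smooth.continuous.comp hc.continuous
      exact Real.continuous_sqrt.comp ((h2.clm_apply h1).clm_apply h1)
    have hint : ∀ a b : ℝ, IntervalIntegrable (fun τ => nr g (c τ) (deriv c τ)) volume a b :=
      fun a b => hcont.intervalIntegrable a b
    rcases le_or_gt (len g c) r with hle | hgt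
    · refine ⟨x, ?_, by rw [hm4]; exact hη⟩
      have h1 := hm1 c hc 0 1 zero_le_one
      rw [hc0, hc1] at h1
      exact h1.trans hle
    · have hF : Continuous (fun T : ℝ => ∫ τ in (0 : ℝ)..T, nr g (c τ) (deriv c τ)) :=
        intervalIntegral.continuous_primitive hint 0
      have hivt := intermediate_value_Icc (zero_le_one (α := ℝ)) hF.continuousOn
      have hmem : r ∈ Icc (∫ τ in (0 : ℝ)..0, nr g (c τ) (deriv c τ))
          (∫ τ in (0 : ℝ)..1, nr g (c τ) (deriv c τ)) := by
        rw [intervalIntegral.integral_same]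
        exact ⟨hr, hgt.le⟩
      obtain ⟨T, hT, hTr⟩ := hivt hmem
      simp only at hTr
      refine ⟨c T, ?_, ?_⟩
      · have h1 := hm1 c hc 0 T hT.1
        rw [hc0, hTr] at h1
        exact h1
      · have h1 := hm1 c hc T 1 hT.2
        rw [hc1] at h1
        have h2 := intervalIntegral.integral_add_adjacent_intervals (hint 0 T) (hint T 1)
        have h3 : len g c = ∫ τ in (0 : ℝ)..1, nr g (c τ) (deriv c τ) := rfl
        rw [← h3, hTr] at h2
        linarith
  -- compactness from total boundedness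
  have hcpt : ∀ r : ℝ, (∀ ε > 0, ∃ F : Set (E n), F.Finite ∧
      ∀ x, dg g p x ≤ r → ∃ y ∈ F, dg g x y < ε) → IsCompact {x | dg g p x ≤ r} := fun r h =>
    cpt_HR (dg g) hm4 hm5 hm6 hd2 hd1 hC p r h
  have htot : ∀ r : ℝ, IsCompact {x | dg g p x ≤ r} → ∀ ε > 0, ∃ F : Set (E n), F.Finite ∧
      ∀ x, dg g p x ≤ r → ∃ y ∈ F, dg g x y < ε := by
    intro r hr ε hε
    obtain ⟨t, ht⟩ := hr.elim_finite_subcover (fun x : E n => {y | dg g x y < ε})
      (fun x => hopen x ε) (fun x _ => mem_iUnion.2 ⟨x, by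
        show dg g x x < ε
        rw [hm4]; exact hε⟩)
    refine ⟨t, t.finite_toSet, fun x hx => ?_⟩
    obtain ⟨y, hy, hxy⟩ := mem_iUnion₂.1 (ht hx)
    exact ⟨y, hy, by rw [hm5]; exact hxy⟩
  -- downward closed
  have hdown : ∀ r s : ℝ, r ≤ s → IsCompact {x | dg g p x ≤ s} → IsCompact {x | dg g p x ≤ r} :=
    fun r s hrs hs => hs.of_isClosed_subset (hclosed p r) (fun x hx => le_trans hx hrs)
  -- locally compact
  have hloc : ∀ x : E n, ∃ ρ > 0, IsCompact {y | dg g x y ≤ 2 * ρ} := by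
    intro x
    obtain ⟨δ, hδ, h⟩ := hd1 x 1 one_pos
    refine ⟨δ / 4, by linarith, ?_⟩
    apply (isCompact_closedBall x 1).of_isClosed_subset (hclosed x _)
    intro y hy
    have hy' : dg g x y ≤ 2 * (δ / 4) := hy
    have := h y (by linarith)
    rw [Metric.mem_closedBall, dist_eq_norm]; exact this.le
  -- step up
  have hstep : ∀ r : ℝ, 0 ≤ r → IsCompact {x | dg g p x ≤ r} →
      ∃ δ > 0, IsCompact {x | dg g p x ≤ r + δ} := by
    intro r hr hK
    choose ρ hρ hρK using hloc
    obtain ⟨t, ht⟩ := hK.elim_finite_subcover (fun x : E n => {y | dg g x y < ρ x})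
      (fun x => hopen x _) (fun x _ => mem_iUnion.2 ⟨x, by
        show dg g x x < ρ x
        rw [hm4]; exact hρ x⟩)
    obtain ⟨δ, hδ, hδt⟩ : ∃ δ > 0, ∀ x ∈ t, δ ≤ ρ x := by
      rcases t.eq_empty_or_nonempty with h | h
      · exact ⟨1, one_pos, by intro x hx; rw [h] at hx; simp at hx⟩
      · obtain ⟨x₀, hx₀, hmin⟩ := t.exists_min_image ρ h
        exact ⟨ρ x₀, hρ x₀, hmin⟩
    refine ⟨δ / 2, by linarith, ?_⟩
    have hKt : IsCompact (⋃ x ∈ t, {y | dg g x y ≤ 2 * ρ x}) :=
      t.isCompact_biUnion (fun x _ => hρK x)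
    apply hKt.of_isClosed_subset (hclosed p _)
    intro y hy
    have hy' : dg g p y ≤ r + δ / 2 := hy
    obtain ⟨z, hz1, hz2⟩ := hsplit y r δ hr hδ (by linarith)
    obtain ⟨x, hx, hxz⟩ := mem_iUnion₂.1 (ht hz1)
    have hxz' : dg g x z < ρ x := hxz
    refine mem_iUnion₂.2 ⟨x, hx, ?_⟩
    have h1 := hm6 x z y
    have h2 := hδt x hx
    show dg g x y ≤ 2 * ρ x
    linarith
  -- limit step
  have hlim : ∀ s : ℝ, (∀ r < s, IsCompact {x | dg g p x ≤ r}) → 0 ≤ s →
      IsCompact {x | dg g p x ≤ 0} → IsCompact {x | dg g p x ≤ s} := by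
    intro s hs hs0 hz
    apply hcpt
    intro ε hε
    have hr : IsCompact {x | dg g p x ≤ max 0 (s - ε / 4)} := by
      rcases le_or_gt (s - ε / 4) 0 with h | h
      · rw [max_eq_left h]; exact hz
      · rw [max_eq_right h.le]; exact hs _ (by linarith)
    obtain ⟨F, hF, hF'⟩ := htot _ hr (ε / 2) (by linarith)
    refine ⟨F, hF, fun x hx => ?_⟩
    obtain ⟨z, hz1, hz2⟩ := hsplit x (max 0 (s - ε / 4)) (ε / 2) (le_max_left _ _) (by linarith)
      (by have := le_max_right 0 (s - ε / 4); linarith)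
    obtain ⟨y, hy, hzy⟩ := hF' z hz1
    refine ⟨y, hy, ?_⟩
    have h1 := hm6 x z y
    rw [hm5 z x] at hz2
    linarith
  have hzero : IsCompact {x | dg g p x ≤ 0} := by
    have : {x | dg g p x ≤ 0} = {p} := by
      ext x
      constructor
      · intro hx
        have hx' : dg g p x ≤ 0 := hx
        exact (hd2 p x (le_antisymm hx' (hm3 p x))).symm
      · intro hx
        have hx' : x = p := hx
        rw [hx']
        show dg g p p ≤ 0
        rw [hm4]
    rw [this]; exact isCompact_singleton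
  by_contra hR
  set S : Set ℝ := {r | IsCompact {x | dg g p x ≤ r}} with hS
  have hbdd : BddAbove S := by
    refine ⟨R₀, fun r hr => ?_⟩
    by_contra hcon
    push Not at hcon
    exact hR (hdown R₀ r hcon.le hr)
  have h0S : (0 : ℝ) ∈ S := hzero
  set s : ℝ := sSup S with hs
  have hs0 : 0 ≤ s := le_csSup hbdd h0S
  have hlt : ∀ r < s, IsCompact {x | dg g p x ≤ r} := by
    intro r hr
    obtain ⟨r', hr', hrr'⟩ := exists_lt_of_lt_csSup ⟨0, h0S⟩ hr
    exact hdown r r' hrr'.le hr'
  obtain ⟨δ, hδ, hδK⟩ := hstep s hs0 (hlim s hlt hs0 hzero)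
  have : s + δ ≤ s := le_csSup hbdd hδK
  linarith

end Pool.Agent.Helper76.LH
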